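import Pool.Agent.H85R3.HSArith
import Pool.Agent.E8helper58.HM.Stm

/-! The congruence subgroups of the norm one units of `ℤ[φ] + ℤ[φ] j` are cocompact. -/

set_option autoImplicit false

open scoped MatrixGroups UpperHalfPlane
open Matrix MeasureTheory Pool.Agent.E8helper58.HM Pool.Agent.E8helper58.HM.Q4 Pool.Agent.H85R3.HS

namespace Pool.Agent.E8helper37.HM

/-- The matrix of the linear map `x ↦ om x * h`. -/
noncomputable def bigM (p q a b c d : ℝ) : Matrix (Fin 4) (Fin 4) ℝ :=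
  !![a, a * p, c, c * p;
     b, b * p, d, d * p;
     c, c * q, 13 * a, 13 * a * q;
     d, d * q, 13 * b, 13 * b * q]

theorem det_bigM (p q a b c d : ℝ) : (bigM p q a b c d).det =
    -(13 * (p - q) ^ 2 * (a * d - b * c) ^ 2) ∨ (bigM p q a b c d).det =
    13 * (p - q) ^ 2 * (a * d - b * c) ^ 2 := by
  unfold bigM
  rw [Matrix.det_succ_row_zero]
  simp [Fin.sum_univ_succ, Matrix.det_fin_three, Matrix.submatrix, Fin.succAbove]
  first
  | (left; ring1)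
  | (right; ring1)

theorem ph_sub_pc_sq : (ph - pc) ^ 2 = 5 := by
  have h1 := ph_sq
  have h2 := pc_sq
  have h3 := ph_add_pc
  have h4 := ph_mul_pc
  nlinarith

theorem minkowski (h : SL(2, ℝ)) : ∃ x : Q4 ℤ, ¬ (x.a = 0 ∧ x.b = 0 ∧ x.c = 0 ∧ x.d = 0) ∧
    ∀ i j, |(om x * h.1) i j| < 3 := by
  have hdet : h 0 0 * h 1 1 - h 0 1 * h 1 0 = 1 := by
    have := h.2
    rw [Matrix.det_fin_two] at this
    exact this
  set A := bigM ph pc (h 0 0) (h 0 1) (h 1 0) (h 1 1) with hA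
  have hdA := det_bigM ph pc (h 0 0) (h 0 1) (h 1 0) (h 1 1)
  rw [← hA, hdet, ph_sub_pc_sq] at hdA
  have hdA' : |A.det| = 65 := by
    rcases hdA with hdA | hdA <;> rw [hdA] <;> norm_num
  set b := Pi.basisFun ℝ (Fin 4) with hb
  set cube : Set (Fin 4 → ℝ) := Set.pi Set.univ fun _ => Set.Ioo (-3 : ℝ) 3 with hcube
  set s : Set (Fin 4 → ℝ) := (Matrix.toLin' A) ⁻¹' cube with hs
  have hlin : LinearMap.det (Matrix.toLin' A) ≠ 0 := by
    rw [LinearMap.det_toLin']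
    intro h0
    rw [h0] at hdA'
    norm_num at hdA'
  have hvol : volume s = ENNReal.ofReal (1296 / 65) := by
    rw [hs, Measure.addHaar_preimage_linearMap volume hlin, LinearMap.det_toLin', abs_inv, hdA',
      hcube, Real.volume_pi_Ioo]
    simp only [sub_neg_eq_add]
    rw [Finset.prod_const, Finset.card_univ, Fintype.card_fin, ← ENNReal.ofReal_pow (by norm_num),
      ← ENNReal.ofReal_mul (by norm_num)]
    norm_num
  have hfund := ZSpan.isAddFundamentalDomain' b (volume : Measure (Fin 4 → ℝ))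
  have hcount : Countable (Submodule.span ℤ (Set.range b)).toAddSubgroup :=
    inferInstanceAs (Countable (Submodule.span ℤ (Set.range b)))
  obtain ⟨v, hv0, hvs⟩ := exists_ne_zero_mem_lattice_of_measure_mul_two_pow_lt_measure (s := s)
    hfund (by
      intro v hv
      rw [hs, Set.mem_preimage, hcube, Set.mem_univ_pi] at hv ⊢
      intro i
      rw [map_neg]
      have := hv i
      exact ⟨by simpa using neg_lt_neg this.2, by simpa using neg_lt_neg this.1⟩)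
    ((convex_pi fun i _ => convex_Ioo _ _).linear_preimage _) (by
      rw [hvol, hb, ZSpan.fundamentalDomain_pi_basisFun, volume_pi, Measure.pi_pi]
      simp
      rw [show (2 : ENNReal) ^ 4 = ENNReal.ofReal 16 by
        rw [← ENNReal.ofReal_ofNat 2, ← ENNReal.ofReal_pow (by norm_num)]; norm_num]
      rw [ENNReal.ofReal_lt_ofReal_iff (by norm_num)]
      norm_num)
  have hmem : (v : Fin 4 → ℝ) ∈ Submodule.span ℤ (Set.range b) := v.2
  rw [b.mem_span_iff_repr_mem ℤ] at hmem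
  have hint : ∀ i, ∃ k : ℤ, (k : ℝ) = (v : Fin 4 → ℝ) i := by
    intro i
    obtain ⟨k, hk⟩ := hmem i
    exact ⟨k, by simpa [hb] using hk⟩
  obtain ⟨x, hx⟩ := hint 0
  obtain ⟨y, hy⟩ := hint 1
  obtain ⟨z, hz⟩ := hint 2
  obtain ⟨w, hw⟩ := hint 3
  refine ⟨⟨x, y, z, w⟩, ?_, ?_⟩
  · rintro ⟨h1, h2, h3, h4⟩
    simp only at h1 h2 h3 h4
    subst h1 h2 h3 h4
    apply hv0
    apply Subtype.ext
    funext i
    fin_cases i
    · simpa using hx.symm
    · simpa using hy.symm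
    · simpa using hz.symm
    · simpa using hw.symm
  · rw [hs, Set.mem_preimage, hcube, Set.mem_univ_pi] at hvs
    have e0 := hvs 0
    have e1 := hvs 1
    have e2 := hvs 2
    have e3 := hvs 3
    rw [Matrix.toLin'_apply] at e0 e1 e2 e3
    simp only [hA, bigM, Matrix.mulVec, dotProduct, Fin.sum_univ_four, Set.mem_Ioo] at e0 e1 e2 e3
    simp at e0 e1 e2 e3
    rw [← hx, ← hy, ← hz, ← hw] at e0 e1 e2 e3
    intro i j
    rw [abs_lt]
    fin_cases i <;> fin_cases j <;>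
      simp [om, Matrix.mul_apply, Fin.sum_univ_two]
    · constructor <;> nlinarith [e0.1, e0.2]
    · constructor <;> nlinarith [e1.1, e1.2]
    · constructor <;> nlinarith [e2.1, e2.2]
    · constructor <;> nlinarith [e3.1, e3.2]

theorem dvd_aux {x y : ℤ} (h : (13 : ℤ) ∣ x ^ 2 + x * y - y ^ 2) : (13 : ℤ) ∣ x ∧ (13 : ℤ) ∣ y := by
  have key : ∀ a b : ZMod 13, a ^ 2 + a * b - b ^ 2 = 0 → a = 0 ∧ b = 0 := by decide
  have h1 : ((x ^ 2 + x * y - y ^ 2 : ℤ) : ZMod 13) = 0 := by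
    rw [ZMod.intCast_zmod_eq_zero_iff_dvd] ; exact_mod_cast h
  push_cast at h1
  obtain ⟨h2, h3⟩ := key _ _ h1
  exact ⟨by exact_mod_cast (ZMod.intCast_zmod_eq_zero_iff_dvd x 13).mp h2,
    by exact_mod_cast (ZMod.intCast_zmod_eq_zero_iff_dvd y 13).mp h3⟩

theorem aniso_dvd {x : Q4 ℤ} (h : nf x = 0) :
    (13 : ℤ) ∣ x.a ∧ (13 : ℤ) ∣ x.b ∧ (13 : ℤ) ∣ x.c ∧ (13 : ℤ) ∣ x.d := by
  obtain ⟨x, y, z, w⟩ := x
  simp only [Q4.nf] at h ⊢
  obtain ⟨⟨a, ha⟩, ⟨b, hb⟩⟩ := dvd_aux (x := x) (y := y) ⟨z ^ 2 + z * w - w ^ 2, by linarith⟩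
  subst ha hb
  obtain ⟨hz, hw⟩ := dvd_aux (x := z) (y := w) ⟨a ^ 2 + a * b - b ^ 2, by nlinarith⟩
  exact ⟨⟨a, rfl⟩, ⟨b, rfl⟩, hz, hw⟩

theorem aniso_aux : ∀ (n : ℕ) (x : Q4 ℤ),
    x.a.natAbs + x.b.natAbs + x.c.natAbs + x.d.natAbs ≤ n →
    nf x = 0 → x.a = 0 ∧ x.b = 0 ∧ x.c = 0 ∧ x.d = 0 := by
  intro n
  induction n with
  | zero =>
    intro x hn _
    omega
  | succ n ih =>
    intro x hn h
    obtain ⟨⟨a, ha⟩, ⟨b, hb⟩, ⟨c, hc⟩, ⟨d, hd⟩⟩ := aniso_dvd h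
    have h' : nf (⟨a, b, c, d⟩ : Q4 ℤ) = 0 := by
      simp only [Q4.nf, ha, hb, hc, hd] at h ⊢
      nlinarith
    rcases Nat.eq_zero_or_pos (a.natAbs + b.natAbs + c.natAbs + d.natAbs) with h0 | h0
    · omega
    · obtain ⟨h1, h2, h3, h4⟩ := ih ⟨a, b, c, d⟩ (by simp only; omega) h'
      simp only at h1 h2 h3 h4
      subst h1 h2 h3 h4
      omega

/-- The norm form is anisotropic. -/
theorem aniso {x : Q4 ℤ} (h : nf x = 0) : x.a = 0 ∧ x.b = 0 ∧ x.c = 0 ∧ x.d = 0 :=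
  aniso_aux _ x le_rfl h

/-- Size. -/
def sz (q : Q4 ℤ) : ℕ := q.a.natAbs + q.b.natAbs + q.c.natAbs + q.d.natAbs

/-- The class. -/
def cls (N : ℤ) (q : Q4 ℤ) : ℤ × ℤ × ℤ × ℤ × ℤ :=
  (nf q, q.a % (nf q * N), q.b % (nf q * N), q.c % (nf q * N), q.d % (nf q * N))

theorem exists_reps {N : ℤ} (hN : 0 < N) : ∃ B : ℕ, ∀ q : Q4 ℤ, nf q ≠ 0 → |nf q| ≤ 18 →
    ∃ q', cls N q' = cls N q ∧ sz q' ≤ B := by
  classical
  set P : Set (Q4 ℤ) := {q | nf q ≠ 0 ∧ |nf q| ≤ 18} with hP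
  have hfin : (cls N '' P).Finite := by
    refine Set.Finite.subset (Set.finite_Icc ((-18 : ℤ), (0 : ℤ), (0 : ℤ), (0 : ℤ), (0 : ℤ))
      (18, 18 * N, 18 * N, 18 * N, 18 * N)) ?_
    rintro _ ⟨q, ⟨hq0, hq⟩, rfl⟩
    rw [abs_le] at hq
    have hne : nf q * N ≠ 0 := mul_ne_zero hq0 hN.ne'
    have hb : ∀ t : ℤ, 0 ≤ t % (nf q * N) ∧ t % (nf q * N) ≤ 18 * N := by
      intro t
      refine ⟨Int.emod_nonneg _ hne, ?_⟩
      have h1 : t % (nf q * N) < |nf q * N| := Int.emod_lt_abs _ hne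
      have h2 : |nf q * N| ≤ 18 * N := by
        rw [abs_mul, abs_of_pos hN]
        exact mul_le_mul_of_nonneg_right (abs_le.mpr hq) hN.le
      linarith
    exact ⟨⟨hq.1, (hb _).1, (hb _).1, (hb _).1, (hb _).1⟩,
      ⟨hq.2, (hb _).2, (hb _).2, (hb _).2, (hb _).2⟩⟩
  have hch : ∀ c : ℤ × ℤ × ℤ × ℤ × ℤ, ∃ B : ℕ, c ∈ cls N '' P → ∃ q', cls N q' = c ∧ sz q' ≤ B := by
    intro c
    by_cases hc : c ∈ cls N '' P
    · obtain ⟨q, -, rfl⟩ := hc
      exact ⟨sz q, fun _ => ⟨q, rfl, le_rfl⟩⟩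
    · exact ⟨0, fun h => absurd h hc⟩
  choose B hB using hch
  refine ⟨hfin.toFinset.sup B, fun q h0 h1 => ?_⟩
  have hc : cls N q ∈ cls N '' P := ⟨q, ⟨h0, h1⟩, rfl⟩
  obtain ⟨q', h2, h3⟩ := hB _ hc
  exact ⟨q', h2, h3.trans (Finset.le_sup (f := B) (hfin.mem_toFinset.mpr hc))⟩

theorem om_sub (x y : Q4 ℤ) :
    om x - om y = om ⟨x.a - y.a, x.b - y.b, x.c - y.c, x.d - y.d⟩ := by
  unfold om
  ext i j
  fin_cases i <;> fin_cases j <;> simp <;> ring

theorem om_one_add (N : ℤ) (p : Q4 ℤ) :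
    (1 : Matrix (Fin 2) (Fin 2) ℝ) + (N : ℝ) • om p =
      om ⟨1 + N * p.a, N * p.b, N * p.c, N * p.d⟩ := by
  unfold om
  ext i j
  fin_cases i <;> fin_cases j <;> simp <;> ring

theorem exists_unit {N : ℤ} {x x' : Q4 ℤ} (h0 : nf x ≠ 0) (hc : cls N x' = cls N x) :
    ∃ g : SL(2, ℝ), InCong N g ∧
      g.1 = ((nf x : ℤ) : ℝ)⁻¹ • ((om x').adjugate * om x) := by
  set n := nf x with hn
  simp only [cls, Prod.mk.injEq] at hc
  obtain ⟨hn', hx, hy, hz, hw⟩ := hc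
  rw [hn'] at hx hy hz hw
  rw [← hn] at hx hy hz hw hn'
  have key : ∀ {t t' : ℤ}, t' % (n * N) = t % (n * N) → ∃ k, t - t' = n * N * k := by
    intro t t' h
    exact Int.ModEq.dvd h
  obtain ⟨p, hp⟩ := key hx
  obtain ⟨q, hq⟩ := key hy
  obtain ⟨r, hr⟩ := key hz
  obtain ⟨s, hs⟩ := key hw
  have hnR : (n : ℝ) ≠ 0 := by exact_mod_cast h0
  have hd' : (om x').det = (n : ℝ) := by
    rw [det_om]
    exact_mod_cast hn'
  have hd : (om x).det = (n : ℝ) := by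
    rw [det_om]
  have h1 : om x = om x' + ((n * N : ℤ) : ℝ) • om ⟨p, q, r, s⟩ := by
    have h2 := om_sub x x'
    rw [hp, hq, hr, hs] at h2
    rw [← om_smul]
    simp only [Q4.smul]
    rw [← h2]
    abel
  have h4 : (n : ℝ)⁻¹ • ((om x').adjugate * om x) =
      1 + (N : ℝ) • ((om x').adjugate * om ⟨p, q, r, s⟩) := by
    rw [h1, Matrix.mul_add, Matrix.adjugate_mul, hd', Matrix.mul_smul, smul_add, smul_smul,
      smul_smul, inv_mul_cancel₀ hnR, one_smul]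
    congr 2
    push_cast
    field_simp
  have hdet1 : ((n : ℝ)⁻¹ • ((om x').adjugate * om x)).det = 1 := by
    rw [Matrix.det_smul, Matrix.det_mul, Matrix.det_adjugate, hd, hd']
    simp
    field_simp
  obtain ⟨g, hg⟩ : ∃ g : SL(2, ℝ), g.1 =
      (n : ℝ)⁻¹ • ((om x').adjugate * om x) := ⟨⟨_, hdet1⟩, rfl⟩
  refine ⟨g, ?_, hg⟩
  refine ⟨_, by rw [hg, h4, adj_om, om_mul, om_one_add], ?_, ?_, ?_, ?_⟩ <;> simp

theorem abs_om_le (x : Q4 ℤ) (B : ℕ) (h : sz x ≤ B) (i j : Fin 2) :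
    |om x i j| ≤ 13 * B := by
  have h5 := sqrt5_gt
  have h5' := sqrt5_lt
  have hph : |ph| ≤ 2 := by
    unfold ph
    rw [abs_le]; constructor <;> linarith
  have hpc : |pc| ≤ 1 := by
    unfold pc
    rw [abs_le]; constructor <;> linarith
  simp only [sz] at h
  have hc : ((x.a.natAbs : ℝ) + x.b.natAbs + x.c.natAbs + x.d.natAbs) ≤ B := by exact_mod_cast h
  simp only [Nat.cast_natAbs, Int.cast_abs] at hc
  have a1 := abs_nonneg (x.a : ℝ)
  have a2 := abs_nonneg (x.b : ℝ)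
  have a3 := abs_nonneg (x.c : ℝ)
  have a4 := abs_nonneg (x.d : ℝ)
  have m1 : |(x.b : ℝ) * ph| ≤ 2 * |(x.b : ℝ)| := by
    rw [abs_mul]
    nlinarith
  have m2 : |(x.d : ℝ) * ph| ≤ 2 * |(x.d : ℝ)| := by
    rw [abs_mul]
    nlinarith
  have m3 : |(x.b : ℝ) * pc| ≤ |(x.b : ℝ)| := by
    rw [abs_mul]
    nlinarith
  have m4 : |(x.d : ℝ) * pc| ≤ |(x.d : ℝ)| := by
    rw [abs_mul]
    nlinarith
  have t1 := abs_add_le (x.a : ℝ) (x.b * ph)
  have t2 := abs_add_le (x.a : ℝ) (x.b * pc)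
  have t3 := abs_add_le (x.c : ℝ) (x.d * ph)
  have t4 := abs_add_le (x.c : ℝ) (x.d * pc)
  fin_cases i <;> fin_cases j
  · simp [om]; linarith
  · simp [om]; linarith
  · simp [om, abs_mul]; linarith
  · simp [om]; linarith

/-- The congruence subgroups act cocompactly. -/
theorem cocompact {N : ℤ} (hN : 0 < N) :
    ∃ K : Set ℍ, IsCompact K ∧ ∀ z : ℍ, ∃ g : SL(2, ℝ), InCong N g ∧ g • z ∈ K := by
  obtain ⟨B, hB⟩ := exists_reps hN
  set R : ℝ := 2 * (2 * (78 * (B : ℝ)) ^ 2) with hR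
  refine ⟨Metric.closedBall UpperHalfPlane.I R, isCompact_closedBall _ _, fun z => ?_⟩
  set h := z.toSL2R with hh
  have hz : h • UpperHalfPlane.I = z := UpperHalfPlane.toSL2R_smul_I z
  obtain ⟨x, hne, hbd⟩ := minkowski h
  have hdh : h.1.det = 1 := h.2
  have hnf : ((nf x : ℤ) : ℝ) = (om x * h.1).det := by
    rw [Matrix.det_mul, hdh, mul_one, det_om]
  have h0 : nf x ≠ 0 := fun h' => hne (aniso h')
  have h18 : |nf x| ≤ 18 := by
    have h1 : |((nf x : ℤ) : ℝ)| ≤ 18 := by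
      rw [hnf, Matrix.det_fin_two]
      have b00 := (hbd 0 0).le
      have b01 := (hbd 0 1).le
      have b10 := (hbd 1 0).le
      have b11 := (hbd 1 1).le
      refine (abs_sub _ _).trans ?_
      rw [abs_mul, abs_mul]
      have := mul_le_mul b00 b11 (abs_nonneg _) (by norm_num)
      have := mul_le_mul b01 b10 (abs_nonneg _) (by norm_num)
      linarith
    exact_mod_cast h1
  obtain ⟨x', hcl, hsz⟩ := hB _ h0 h18
  obtain ⟨g, hg, hgm⟩ := exists_unit h0 hcl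
  refine ⟨g, hg, ?_⟩
  have hn1 : (1 : ℝ) ≤ |((nf x : ℤ) : ℝ)| := by
    have : 1 ≤ |nf x| := Int.one_le_abs h0
    exact_mod_cast this
  have hadj : ∀ i j, |(om x').adjugate i j| ≤ 13 * B := by
    intro i j
    have hb := abs_om_le x' B hsz
    rw [Matrix.adjugate_fin_two]
    fin_cases i <;> fin_cases j <;> simp <;> exact hb _ _
  have hent : ∀ i j, |(g * h).1 i j| ≤ 78 * B := by
    intro i j
    have h1 : (g * h).1 = ((nf x : ℤ) : ℝ)⁻¹ •
        ((om x').adjugate * (om x * h.1)) := by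
      rw [Matrix.SpecialLinearGroup.coe_mul, hgm, Matrix.smul_mul, Matrix.mul_assoc]
    rw [h1, Matrix.smul_apply, Matrix.mul_apply, Fin.sum_univ_two, smul_eq_mul, abs_mul, abs_inv]
    have q0 := hadj i 0
    have q1 := hadj i 1
    have r0 := (hbd 0 j).le
    have r1 := (hbd 1 j).le
    have hB0 : (0 : ℝ) ≤ 13 * B := by positivity
    have s1 : |(om x').adjugate i 0 * (om x * h.1) 0 j +
        (om x').adjugate i 1 * (om x * h.1) 1 j| ≤ 78 * B := by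
      refine (abs_add_le _ _).trans ?_
      rw [abs_mul, abs_mul]
      have := mul_le_mul q0 r0 (abs_nonneg _) hB0
      have := mul_le_mul q1 r1 (abs_nonneg _) hB0
      linarith
    have s2 : |((nf x : ℤ) : ℝ)|⁻¹ ≤ 1 := inv_le_one_of_one_le₀ hn1
    calc _ ≤ 1 * (78 * (B : ℝ)) := mul_le_mul s2 s1 (abs_nonneg _) zero_le_one
      _ = _ := one_mul _
  rw [Metric.mem_closedBall, dist_comm, ← hz, ← mul_smul]
  have hcosh := cosh_dist_I (g * h)
  set k := g * h with hk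
  have e := fun i j => sq_le_sq' (neg_le_of_abs_le (hent i j)) (le_of_abs_le (hent i j))
  have e00 := e 0 0
  have e01 := e 0 1
  have e10 := e 1 0
  have e11 := e 1 1
  have h3 : Real.cosh (dist UpperHalfPlane.I (k • UpperHalfPlane.I)) ≤ 2 * (78 * (B : ℝ)) ^ 2 := by
    rw [hcosh]
    linarith
  have h4 : dist UpperHalfPlane.I (k • UpperHalfPlane.I) ≤
      2 * Real.cosh (dist UpperHalfPlane.I (k • UpperHalfPlane.I)) := by
    rw [Real.cosh_eq]
    have h5 := Real.add_one_le_exp (dist UpperHalfPlane.I (k • UpperHalfPlane.I))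
    have h6 := Real.exp_pos (-(dist UpperHalfPlane.I (k • UpperHalfPlane.I)))
    linarith
  rw [hR]
  linarith

/-- Part COC. -/
theorem coc : S_COC := fun _ hN => cocompact hN

end Pool.Agent.E8helper37.HM
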